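import Pool.Agent.Helper59.ADP.FinalF

/-!
# Adaptive randomised algebraic algorithms for `k`-SAT

A test is a polynomial `f` in variables `x_C`, one for every clause `C` with `k` literals, and
further variables `y`. Its answer on a formula `φ` is whether `f` with `x_C = 0` for all clauses `C`
of `φ` is a nonzero polynomial (a randomised algorithm finds this out by evaluating `f` at random
values; the tests for perfect matchings of Lovasz and Mulmuley, Vazirani, Vazirani, and the
algorithms of Bjorklund for Hamiltonian cycles are of this kind). An algorithm chooses at random `N`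
tests and a decision tree (`Pool.AD.DT`), which asks some of these tests one after the other,
depending on the answers before, and accepts or rejects. `Pool.AD.DT.ones` is the set of the tests
which are asked and answered `nonzero`.
-/

set_option autoImplicit false

open scoped BigOperators

namespace Pool.Agent.Results.MP_b6562f_lc.AdaptiveTests

open MvPolynomial

/-- A clause with exactly `k` literals, on `k` different variables among `n` Boolean variables. The
literal `(i, s)` is true if the variable `i` has the value `s`. -/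
abbrev Clause (n k : ℕ) : Type :=
  {C : Finset (Fin n × Bool) // C.card = k ∧ ∀ i, ¬ ((i, true) ∈ C ∧ (i, false) ∈ C)}

/-- The formula `φ` (a conjunction of clauses) is satisfiable. -/
def Satisfiable {n k : ℕ} (φ : Finset (Clause n k)) : Prop :=
  ∃ a : Fin n → Bool, ∀ C ∈ φ, ∃ p ∈ C.1, a p.1 = p.2

/-- The polynomial `f` with `x_C` replaced by `0` for all clauses `C` of `φ`. -/
noncomputable def onFormula {n k : ℕ} {F Y : Type} [Field F] (φ : Finset (Clause n k))
    (f : MvPolynomial (Clause n k ⊕ Y) F) : MvPolynomial (Clause n k ⊕ Y) F :=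
  aeval (Sum.elim (fun C => if C ∈ φ then 0 else X (Sum.inl C)) (fun y => X (Sum.inr y))) f

/-- `f` is a sum of `T` polynomials of degree at most `g` (with coefficients which are polynomials in
the further variables) in `a` Pfaffians of alternating matrices of orders at most `2 m`, whose
entries above the diagonal have degree at most `1` in the variables `x_C`. -/
def IsSum {n k : ℕ} {F Y : Type} [Field F] (T a g m : ℕ)
    (f : MvPolynomial (Clause n k ⊕ Y) F) : Prop :=
  ∃ (s : Fin T → Fin a → ℕ) (P : Fin T → MvPolynomial (Fin a) (MvPolynomial Y F))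
    (A : ∀ t i, Matrix (Fin (2 * s t i)) (Fin (2 * s t i)) (MvPolynomial (Clause n k ⊕ Y) F)),
    (∀ t i, s t i ≤ m) ∧ (∀ t, (P t).totalDegree ≤ g) ∧
    (∀ t i x y, ∀ μ ∈ (A t i x y).support, ∑ C : Clause n k, μ (Sum.inl C) ≤ 1) ∧
    f = ∑ t,
      eval₂ (rename Sum.inr : MvPolynomial Y F →ₐ[F] MvPolynomial (Clause n k ⊕ Y) F).toRingHom
        (fun i => Pool.PF.pf (s t i) (A t i)) (P t)

open Classical in
/-- **Theorem.** Let a random choice of `N` tests, which are sums of `T` polynomials of degree at most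
`g` in `a` Pfaffians of orders at most `2 m`, `N m min (g, n) ≤ μ n ^ k`, and of a decision tree of
any depth, with at most `h` answers `nonzero` on every path, decide `k`-SAT for `n` variables, with
errors `ε₁` on satisfiable and `ε₂` on unsatisfiable formulas, `ε₁ + ε₂ ≤ α < 1`. Let the tests have
degree at most `e` in every variable `x_C`, or `N m g ≤ e n ^ k`. Then
`3 N T 2 ^ a ≥ exp (n / (N (C h e μ) ^ (C e)))`. -/
theorem result : ∀ (k : ℕ) (α : ℝ), 3 ≤ k → α < 1 → ∃ C : ℕ, 1 ≤ C ∧
    ∀ (F : Type) [Field F] (Y Ω : Type) [Fintype Ω] (n N h e m T a g : ℕ) (μ ε₁ ε₂ : ℝ),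
    1 ≤ n → 1 ≤ N → 1 ≤ h → 1 ≤ e → 1 ≤ T → 1 ≤ μ → N * m * min g n ≤ μ * n ^ k →
    0 ≤ ε₁ → 0 ≤ ε₂ → ε₁ + ε₂ ≤ α →
    ∀ (p : Ω → ℝ) (f : Ω → Fin N → MvPolynomial (Clause n k ⊕ Y) F) (t : Ω → Pool.AD.DT N),
    (∀ ω, 0 ≤ p ω) → ∑ ω, p ω = 1 →
    (∀ ω v, IsSum T a g m (f ω v)) →
    ((∀ ω v, ∀ ν ∈ (f ω v).support, ∀ C, ν (Sum.inl C) ≤ e) ∨ N * m * g ≤ e * n ^ k) →
    (∀ ω b, ((t ω).ones b).card ≤ h) →
    (∀ φ, Satisfiable φ →
      (∑ ω, if (t ω).eval (fun v => decide (onFormula φ (f ω v) ≠ 0)) = false then p ω else 0) ≤ ε₁) →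
    (∀ φ, ¬ Satisfiable φ →
      (∑ ω, if (t ω).eval (fun v => decide (onFormula φ (f ω v) ≠ 0)) = true then p ω else 0) ≤ ε₂) →
    Real.exp (n / (N * (C * h * e * μ) ^ (C * e))) ≤ 3 * N * T * 2 ^ a :=
  Pool.Agent.Helper59.ADP.clean_ofF Pool.Agent.Helper59.ADP.adaptiveF

end Pool.Agent.Results.MP_b6562f_lc.AdaptiveTests
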