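import Pool.Agent.Helper59.CDT.Clean

/-!
# Constant depth tests for `k`-SAT with one-sided error

A test is a polynomial `f` in variables `x_C`, one for every clause `C` with `k` literals. It accepts
a formula `φ` if `f` with `x_C = 0` for all clauses `C` of `φ` is a nonzero polynomial (a randomised
algorithm finds this out by evaluating `f` at random values). The coefficients lie in any field
`F`, for instance a field of rational functions in further variables. The test is computed by a
circuit of constant depth: a sum of `T` products of `S` polynomials of level `l`; a polynomial of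
level `l + 1` is any polynomial in `w` sums of `S` products of `S` polynomials of level `l`, and a
polynomial of level `0` is any polynomial in `w₀` polynomials of degree at most one.
-/

set_option autoImplicit false

open scoped BigOperators

namespace Pool.Agent.Results.MP_b6562f_lc.ConstantDepthTests

open MvPolynomial

/-- A clause with exactly `k` literals, on `k` different variables among `n` Boolean variables. The
literal `(i, s)` is true if the variable `i` has the value `s`. -/
abbrev Clause (n k : ℕ) : Type :=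
  {C : Finset (Fin n × Bool) // C.card = k ∧ ∀ i, ¬ ((i, true) ∈ C ∧ (i, false) ∈ C)}

/-- The assignment `a` satisfies the formula `φ` (a conjunction of clauses). -/
def Satisfies {n k : ℕ} (a : Fin n → Bool) (φ : Finset (Clause n k)) : Prop :=
  ∀ C ∈ φ, ∃ p ∈ C.1, a p.1 = p.2

/-- The polynomial `f` with `x_C` replaced by `0` for all clauses `C` of `φ`. -/
noncomputable def onFormula {n k : ℕ} {F : Type} [Field F] (φ : Finset (Clause n k))
    (f : MvPolynomial (Clause n k) F) : MvPolynomial (Clause n k) F :=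
  aeval (fun C => if C ∈ φ then 0 else X C) f

/-- The polynomials of level `l`. Level `0`: any polynomial in `w₀` polynomials of degree at most
one. Level `l + 1`: any polynomial in `w` sums of `S` products of `S` polynomials of level `l`. -/
def Level {V F : Type} [Field F] (w₀ w S : ℕ) : ℕ → Set (MvPolynomial V F)
  | 0 => {g | ∃ (L : Fin w₀ → MvPolynomial V F) (Q : MvPolynomial (Fin w₀) F),
      (∀ i, (L i).totalDegree ≤ 1) ∧ g = aeval L Q}
  | l + 1 => {g | ∃ (h : Fin w → Fin S → Fin S → MvPolynomial V F)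
      (Q : MvPolynomial (Fin w) F), (∀ a b c, h a b c ∈ Level w₀ w S l) ∧
        g = aeval (fun a => ∑ b, ∏ c, h a b c) Q}

/-- `f` is a sum of `T` products of `S` polynomials of level `l`. -/
def IsSum {V F : Type} [Field F] (w₀ w S l T : ℕ) (f : MvPolynomial V F) : Prop :=
  ∃ h : Fin T → Fin S → MvPolynomial V F, (∀ i j, h i j ∈ Level w₀ w S l) ∧
    f = ∑ i, ∏ j, h i j

open Classical in
/-- **Theorem.** Let `f` be a random test for `k`-SAT, `k ≥ 3`, which never accepts an unsatisfiable
formula and accepts each formula with exactly one satisfying assignment with probability at least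
`δ`; always of degree at most one in every variable `x_C`, or of total degree at most
`n.choose k`; and always a sum of `T` products of `S` polynomials of level `l`. Then
`log (2 T / δ) ≥ (n / C) exp (- C ((log S) ^ (1 - η) (log (2 w)) ^ η + log w₀))`,
`η = 1 / (fib (2 l + 4) - 1)`. -/
theorem result : ∀ k l : ℕ, 3 ≤ k → ∃ C : ℝ, 0 < C ∧
    ∀ (F : Type) [Field F] (Ω : Type) [Fintype Ω] (n S w w₀ T : ℕ) (δ : ℝ) (p : Ω → ℝ)
      (f : Ω → MvPolynomial (Clause n k) F),
    2 ≤ S → 1 ≤ w → w ≤ S → 1 ≤ w₀ → 1 ≤ T → 0 < δ → δ ≤ 1 →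
    (∀ ω, 0 ≤ p ω) → ∑ ω, p ω = 1 →
    (∀ ω, IsSum w₀ w S l T (f ω)) →
    (∀ ω, (∀ ν ∈ (f ω).support, ∀ c, ν c ≤ 1) ∨ (f ω).totalDegree ≤ n.choose k) →
    (∀ φ, (¬ ∃ a, Satisfies a φ) → ∀ ω, onFormula φ (f ω) = 0) →
    (∀ φ, (∃! a, Satisfies a φ) → δ ≤ ∑ ω, if onFormula φ (f ω) ≠ 0 then p ω else 0) →
    n * Real.exp (-(C * (Real.log S ^ (1 - 1 / ((Nat.fib (2 * l + 4) : ℝ) - 1)) *
      Real.log (2 * w) ^ (1 / ((Nat.fib (2 * l + 4) : ℝ) - 1)) + Real.log w₀))) ≤
      C * Real.log (2 * T / δ) := by
  intro k l hk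
  obtain ⟨d, rfl⟩ : ∃ d, k = d + 1 := ⟨k - 1, by omega⟩
  obtain ⟨C, hC, H⟩ := Pool.Agent.Helper59.CDT.cdt_clean d l (by omega)
  refine ⟨C, hC, ?_⟩
  intro F _ Ω _ n S w w₀ T δ p f hS hw hwS hw0 hT hδ hδ1 hp hp1 hf hml hno hyes
  have hlev : ∀ (m : ℕ) (g : MvPolynomial (Clause n (d + 1)) F), g ∈ Level w₀ w S m →
      g ∈ Pool.Agent.Helper41.CD.Cls w₀ w S m := by
    intro m
    induction m with
    | zero => exact fun g hg => hg
    | succ m ih =>
      rintro g ⟨h, Q, h1, rfl⟩
      exact ⟨h, Q, fun a b c => ih _ (h1 a b c), rfl⟩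
  exact H F Ω n S w w₀ T δ p f hS hw hwS hw0 hT hδ hδ1 hp hp1
    (fun ω => by
      obtain ⟨h, h1, h2⟩ := hf ω
      exact ⟨h, fun i j => hlev l _ (h1 i j), h2⟩) hml hno hyes

end Pool.Agent.Results.MP_b6562f_lc.ConstantDepthTests
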