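import Pool.Agent.Helper59.SAT.RTEnd

/-!
# Randomised algebraic tests for `k`-SAT need `2 ^ ((1 - ε) n)` terms

A test is a polynomial `f` in variables `x_C`, one for every clause `C` with `k` literals, and
further variables. It accepts a formula `φ` if `f` with `x_C = 0` for all clauses `C` of `φ` is a
nonzero polynomial. The tests are random, and they may err on both sides.
-/

set_option autoImplicit false

open scoped BigOperators

namespace Pool.Agent.Results.MP_b6562f_lc.SatisfiabilitySums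

open MvPolynomial

/-- A clause with exactly `k` literals, on `k` different variables among `n` Boolean variables. The
literal `(i, s)` is true if the variable `i` has the value `s`. -/
abbrev Clause (n k : ℕ) : Type :=
  {C : Finset (Fin n × Bool) // C.card = k ∧ ∀ i, ¬ ((i, true) ∈ C ∧ (i, false) ∈ C)}

/-- The assignment `a` satisfies all clauses of `φ`. -/
def Satisfies {n k : ℕ} (a : Fin n → Bool) (φ : Finset (Clause n k)) : Prop :=
  ∀ C ∈ φ, ∃ p ∈ C.1, a p.1 = p.2

/-- The polynomial `f` with `x_C` replaced by `0` for all clauses `C` of `φ`. -/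
noncomputable def onFormula {n k : ℕ} {F Y : Type} [Field F] (φ : Finset (Clause n k))
    (f : MvPolynomial (Clause n k ⊕ Y) F) : MvPolynomial (Clause n k ⊕ Y) F :=
  aeval (Sum.elim (fun C => if C ∈ φ then 0 else X (Sum.inl C)) (fun y => X (Sum.inr y))) f

/-- The degree of `f` in the variables `x_C` is at most `d`. -/
def DegreeLE {n k : ℕ} {F Y : Type} [Field F] (f : MvPolynomial (Clause n k ⊕ Y) F) (d : ℕ) :
    Prop :=
  ∀ μ ∈ f.support, ∑ C : Clause n k, μ (Sum.inl C) ≤ d

/-- `f` is a sum of `T` products of a polynomial of degree at most `v` and a polynomial of degree at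
most `g` (with coefficients which are polynomials in the further variables) in `q` Pfaffians of
alternating matrices of orders at most `2 m`, whose entries above the diagonal have degree at most
`d`. -/
def IsSum {n k : ℕ} {F Y : Type} [Field F] (T q g m d v : ℕ)
    (f : MvPolynomial (Clause n k ⊕ Y) F) : Prop :=
  ∃ (s : Fin T → Fin q → ℕ) (R : Fin T → MvPolynomial (Clause n k ⊕ Y) F)
    (P : Fin T → MvPolynomial (Fin q) (MvPolynomial Y F))
    (A : ∀ t i, Matrix (Fin (2 * s t i)) (Fin (2 * s t i)) (MvPolynomial (Clause n k ⊕ Y) F)),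
    (∀ t i, s t i ≤ m) ∧ (∀ t, DegreeLE (R t) v) ∧ (∀ t, (P t).totalDegree ≤ g) ∧
    (∀ t i x y, DegreeLE (A t i x y) d) ∧
    f = ∑ t, R t *
      eval₂ (rename Sum.inr : MvPolynomial Y F →ₐ[F] MvPolynomial (Clause n k ⊕ Y) F).toRingHom
        (fun i => Pool.PF.pf (s t i) (A t i)) (P t)

open Classical in
/-- **Theorem.** Random tests for `k`-SAT with two-sided error, even if they only have to distinguish
formulas with exactly one solution from formulas without a solution, need `2 ^ ((1 - ε) n)` terms,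
if `k` is large. -/
theorem result : ∀ ε α : ℝ, 0 < ε → α < 1 → ∃ K : ℕ, 1 ≤ K ∧
    ∀ (F : Type) [Field F] (Y Ω : Type) [Fintype Ω] (n k T q g m d v : ℕ) (l b ε₁ ε₂ : ℝ),
    K ≤ k → K * k ≤ n → 1 ≤ l → K * l * Real.log k ≤ k → b = 2 ^ (k / (K * l)) →
    q ≤ b * n → 1 ≤ d → n * d ≤ n.choose k → m * d * min g n ≤ b * n.choose k →
    K * v ≤ n.choose k → ε₁ + ε₂ ≤ α →
    ∀ (p : Ω → ℝ) (f : Ω → MvPolynomial (Clause n k ⊕ Y) F), (∀ ω, 0 ≤ p ω) → ∑ ω, p ω = 1 →
    (∀ ω, IsSum T q g m d v (f ω)) →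
    (∀ ω, ∀ μ ∈ (f ω).support, (∀ C, (μ (Sum.inl C) : ℝ) ≤ l) ∨
      (∑ C, μ (Sum.inl C) : ℝ) ≤ l * n.choose k) →
    (∀ φ, (∃! a, Satisfies a φ) → (∑ ω, if onFormula φ (f ω) = 0 then p ω else 0) ≤ ε₁) →
    (∀ φ, (¬ ∃ a, Satisfies a φ) → (∑ ω, if onFormula φ (f ω) ≠ 0 then p ω else 0) ≤ ε₂) →
    (2 : ℝ) ^ ((1 - ε) * n) ≤ T :=
  Pool.SatDet.clean

end Pool.Agent.Results.MP_b6562f_lc.SatisfiabilitySums
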